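import Pool.Agent.Lib.MP_ae38e0_lc.Few.Main

set_option autoImplicit false

/-!
# The attack after the end, in a uniform shape
-/

namespace Pool.Agent.LinOT

open Classical

variable {K : Type} [Field K] {Q M X Y RA RB σ : Type}

variable (L : Submodule K (Q → K)) [Fintype L] [Fintype RA] [Fintype RB]

/-- **Key agreement** with any number of rounds: `|K| ^ (2 min nA nB)` in place of a binomial
coefficient. -/
theorem any_few [Fintype K] [Nonempty σ] [Nonempty RA] [Nonempty RB] (A : Party Q K M X)
    (B : Party Q K M Y) (iA : RA → A.St) (iB : RB → B.St) (outA : RA → A.St → Option σ)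
    (outB : RB → B.St → σ) (m0 : M) (n nA nB h N : ℕ) (hab : nA ≤ n ∧ nB ≤ n) (hn : 0 < n)
    (hh : 0 < h)
    (hA : ∀ O ∈ L, ∀ (ra : RA) (l : List (M × M)), l.length = N →
      (A.asked O (iA ra) l).length ≤ nA)
    (hB : ∀ O ∈ L, ∀ (rb : RB) (l : List (M × M)), l.length = N →
      (B.asked O (iB rb) l).length ≤ nB) :
    ∃ E : List (M × M) → Comp Q K σ,
      (∀ t O, ((E t).asked O).length ≤
        1024 * n ^ 11 * Fintype.card K ^ (2 * min nA nB) * h ^ 8) ∧
      prob (fun w : RA × RB × L =>
        outA w.1 (exec A B w.2.2 N (iA w.1) (iB w.2.1) m0).2.1 =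
        some (outB w.2.1 (exec A B w.2.2 N (iA w.1) (iB w.2.1) m0).2.2)) - 25 / h ≤
      prob (fun w : RA × RB × L =>
        (E (exec A B w.2.2 N (iA w.1) (iB w.2.1) m0).1).run w.2.2 =
        outB w.2.1 (exec A B w.2.2 N (iA w.1) (iB w.2.1) m0).2.2) := by
  have hh' : (0 : ℝ) < h := by exact_mod_cast hh
  set m := min nA nB with hm
  set x := Fintype.card K ^ (2 * m) with hx
  have hq1 : 1 ≤ Fintype.card K := Fintype.card_pos
  have hx1 : 1 ≤ x := Nat.one_le_pow _ _ hq1
  obtain ⟨E, hE1, hE2⟩ := few_attack L A B iA iB outA outB m0 nA (max nB 1) m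
    ((2 * x + 6) * h) h N (by omega) (by positivity) hh hA
    (fun O hO rb l hl => (hB O hO rb l hl).trans (le_max_left _ _))
    (by
      rcases le_total nA nB with h1 | h1
      · left
        intro O hO ra l hl
        exact (hA O hO ra l hl).trans (le_min le_rfl h1)
      · right
        intro O hO rb l hl
        exact (hB O hO rb l hl).trans (le_min h1 le_rfl))
  refine ⟨E, fun t O => (hE1 t O).trans ?_, le_trans ?_ hE2⟩
  · have h1 : max nB 1 ≤ n := max_le hab.2 hn
    calc max nB 1 * ((2 * x + 6) * h) * h * nA ≤ n * ((8 * x) * h) * h * n := by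
          have h2 : 2 * x + 6 ≤ 8 * x := by omega
          have h3 := hab.1
          gcongr
      _ = 8 * n ^ 2 * x * h ^ 2 := by ring
      _ ≤ 1024 * n ^ 11 * x * h ^ 8 := by
          exact Nat.mul_le_mul (Nat.mul_le_mul (Nat.mul_le_mul (by norm_num)
            (Nat.pow_le_pow_right hn (by norm_num))) le_rfl)
            (Nat.pow_le_pow_right hh (by norm_num))
  · apply sub_le_sub_left
    have e1 : ((Fintype.card K : ℝ) ^ m) ^ 2 = (x : ℝ) := by
      rw [hx]
      push_cast
      rw [← pow_mul]; congr 1; ring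
    have e2 : (2 * ((Fintype.card K : ℝ) ^ m) ^ 2 + 6) / (((2 * x + 6) * h : ℕ) : ℝ) = 1 / h := by
      rw [e1]
      push_cast
      field_simp
    rw [e2, ← add_div]
    exact div_le_div_of_nonneg_right (by norm_num) hh'.le

end Pool.Agent.LinOT
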