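import Pool.Agent.Lib.MP_ae38e0_lc.Few.AnyFew
import Pool.Agent.Lib.MP_ae38e0_lc.Any.AnyOT
import Pool.Agent.Lib.MP_ae38e0_lc.Any.Num

set_option autoImplicit false

/-!
# The better one of the two attacks
-/

namespace Pool.Agent.LinOT

open Classical

variable {K : Type} [Field K] {Q M X Y RA RB σ : Type}

variable (L : Submodule K (Q → K)) [Fintype L] [Fintype RA] [Fintype RB]

/-- **Key agreement** with any number of rounds: the better one of the two attacks. -/
theorem both_attack [Fintype K] [Nonempty σ] [Nonempty RA] [Nonempty RB] (A : Party Q K M X)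
    (B : Party Q K M Y) (iA : RA → A.St) (iB : RB → B.St) (outA : RA → A.St → Option σ)
    (outB : RB → B.St → σ) (m0 : M) (n nA nB h N : ℕ) (hab : nA ≤ n ∧ nB ≤ n) (hn : 0 < n)
    (hh : 0 < h)
    (hA : ∀ O ∈ L, ∀ (ra : RA) (l : List (M × M)), l.length = N →
      (A.asked O (iA ra) l).length ≤ nA)
    (hB : ∀ O ∈ L, ∀ (rb : RB) (l : List (M × M)), l.length = N →
      (B.asked O (iB rb) l).length ≤ nB) :
    ∃ E : List (M × M) → Comp Q K σ,
      (∀ t O, ((E t).asked O).length ≤ 1024 * n ^ 11 *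
        min ((nA + nB).choose nA) (Fintype.card K ^ (2 * min nA nB)) * h ^ 8) ∧
      prob (fun w : RA × RB × L =>
        outA w.1 (exec A B w.2.2 N (iA w.1) (iB w.2.1) m0).2.1 =
        some (outB w.2.1 (exec A B w.2.2 N (iA w.1) (iB w.2.1) m0).2.2)) - 25 / h ≤
      prob (fun w : RA × RB × L =>
        (E (exec A B w.2.2 N (iA w.1) (iB w.2.1) m0).1).run w.2.2 =
        outB w.2.1 (exec A B w.2.2 N (iA w.1) (iB w.2.1) m0).2.2) := by
  rcases le_total ((nA + nB).choose nA) (Fintype.card K ^ (2 * min nA nB)) with h1 | h1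
  · rw [min_eq_left h1]
    exact any_attack L A B iA iB outA outB m0 n nA nB h N hab hn hh hA hB
  · rw [min_eq_right h1]
    exact any_few L A B iA iB outA outB m0 n nA nB h N hab hn hh hA hB

omit [Fintype L] [Fintype RA] [Fintype RB] in
/-- **Oblivious transfer** with any number of rounds. -/
theorem ot_both [Fintype K] (L : Submodule K (Q → K)) [Finite L] (R : Party Q K M Bool)
    (S : Party Q K M (Bool × Bool)) [Fintype R.Tape] [Fintype S.Tape] [Nonempty R.Tape]
    [Nonempty S.Tape] (out : R.St → Option Bool) (m0 : M)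
    (N n nR nS h : ℕ) (hab : nR ≤ n ∧ nS ≤ n) (hn : 0 < n) (hh : 0 < h)
    (hR : limited L R false N nR) (hS : ∀ b, limited L S b N nS)
    (δ : ℝ) (b1 : Bool) (hδ : ∀ b0, err L R S out N m0 false b0 b1 ≤ δ) :
    ∃ E : List (M × M) → Comp Q K Bool,
      (∀ t O, ((E t).asked O).length ≤ 1024 * n ^ 11 *
        min ((nR + nS).choose nR) (Fintype.card K ^ (2 * min nR nS)) * h ^ 8) ∧
      1 - 2 * (δ + 25 / h) ≤ advSum L R S N m0 E b1 := by
  have : Fintype L := Fintype.ofFinite L
  have : Nonempty L := ⟨0⟩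
  obtain ⟨E, hE1, hE2⟩ := both_attack L (RA := R.Tape) (RB := Bool × S.Tape) (σ := Bool) R S
    (fun τ => R.init false τ) (fun p => S.init (p.1, b1) p.2) (fun _ s => out s)
    (fun p _ => p.1) m0 n nR nS h N hab hn hh (fun O hO ra l hl => hR O hO ra l hl)
    (fun O hO rb l hl => hS _ O hO rb.2 l hl)
  refine ⟨E, hE1, ?_⟩
  have q1 := prob_bool (T := R.Tape) (U := S.Tape) (V := L) (fun b O τ τ' =>
    out (exec R S O N (R.init false τ) (S.init (b, b1) τ') m0).2.1 = some b)
  have q2 := prob_bool (T := R.Tape) (U := S.Tape) (V := L) (fun b O τ τ' =>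
    (E (exec R S O N (R.init false τ) (S.init (b, b1) τ') m0).1).run (O : Q → K) = b)
  rw [q1, q2] at hE2
  have e1 : ∀ b0, 1 - δ ≤ prob (fun w : L × R.Tape × S.Tape =>
      out (exec R S w.1 N (R.init false w.2.1) (S.init (b0, b1) w.2.2) m0).2.1 = some b0) := by
    intro b0
    have := hδ b0
    unfold err at this
    rw [prob_not] at this
    unfold output at this
    simp only [Bool.false_eq_true, if_false] at this
    linarith
  have e2 : prob (fun w : L × R.Tape × S.Tape =>
      (E (exec R S w.1 N (R.init false w.2.1) (S.init (false, b1) w.2.2) m0).1).run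
        (w.1 : Q → K) = false) = 1 - acc L R S N m0 E false false b1 := by
    unfold acc
    rw [← prob_not]
    congr 1
    funext w
    simp [transcript]
  have e3 : prob (fun w : L × R.Tape × S.Tape =>
      (E (exec R S w.1 N (R.init false w.2.1) (S.init (true, b1) w.2.2) m0).1).run
        (w.1 : Q → K) = true) = acc L R S N m0 E false true b1 := rfl
  have f0 := e1 false
  have f1 := e1 true
  rw [e2, e3] at hE2
  have a1 := le_abs_self (acc L R S N m0 E true false b1 - acc L R S N m0 E false false b1)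
  have a2 := neg_abs_le (acc L R S N m0 E true true b1 - acc L R S N m0 E false true b1)
  have a3 := neg_abs_le (acc L R S N m0 E true true b1 - acc L R S N m0 E true false b1)
  have a4 := le_abs_self (acc L R S N m0 E true true b1 - acc L R S N m0 E true false b1)
  unfold advSum
  linarith

/-- **The barrier for any number of rounds.** -/
theorem both_barrier (K M : Type) [Field K] [Fintype K] (k N n nR nS h : ℕ)
    (L : Submodule K ((Fin (2 ^ k) × Fin (3 * k) → K) → K))
    (R : Party (Fin (2 ^ k) × Fin (3 * k) → K) K M Bool)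
    (S : Party (Fin (2 ^ k) × Fin (3 * k) → K) K M (Bool × Bool)) [Fintype R.Tape]
    [Fintype S.Tape] [Nonempty R.Tape] [Nonempty S.Tape] (out : R.St → Option Bool) (m0 : M)
    (hab : nR ≤ n ∧ nS ≤ n) (hn : 0 < n) (hh : 0 < h)
    (hR : limited L R false N nR) (hS : ∀ b, limited L S b N nS)
    (δ : ℝ) (b1 : Bool)
    (hδ : ∀ b0, err L R S out N m0 false b0 b1 ≤ δ) :
    ∃ E : List (M × M) → Comp (Fin (2 ^ k) × Fin (3 * k) → K) K Bool,
      (∀ t O, ((E t).asked O).length ≤ 1024 * n ^ 11 *
        min ((nR + nS).choose nR) (Fintype.card K ^ (2 * min nR nS)) * h ^ 8) ∧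
      1 - 2 * δ - 50 / h ≤ advSum L R S N m0 E b1 ∧
      ∀ (q : ℕ) (I : (Fin (3 * k) → K) →
          Comp ((Fin (2 ^ k) × Fin (3 * k) → K) ⊕ List (M × M)) (K ⊕ Bool) (Fin (2 ^ k))),
        (∀ y O, ((I y).asked (withAdv O E)).length ≤ q) →
        prob (fun p : (Fin (2 ^ k) → Fin (3 * k) → K) × Fin (2 ^ k) =>
          p.1 ((I (p.1 p.2)).run (withAdv (lin p.1) E)) = p.1 p.2) ≤
            ((1024 * n ^ 11 * min ((nR + nS).choose nR) (Fintype.card K ^ (2 * min nR nS)) *
              h ^ 8 * q : ℕ) + 2) / 2 ^ k := by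
  have : Finite L := inferInstance
  obtain ⟨E, hE1, hE2⟩ := ot_both L R S out m0 N n nR nS h hab hn hh hR hS δ b1 hδ
  refine ⟨E, hE1, ?_, ?_⟩
  · refine le_trans (le_of_eq ?_) hE2
    ring
  · intro q I hI
    have h1 : 1 ≤ 1024 * n ^ 11 *
        min ((nR + nS).choose nR) (Fintype.card K ^ (2 * min nR nS)) * h ^ 8 := by
      have h2 : 0 < (nR + nS).choose nR := Nat.choose_pos (by omega)
      have h3 : 0 < Fintype.card K ^ (2 * min nR nS) := pow_pos Fintype.card_pos _
      have h4 : 0 < min ((nR + nS).choose nR) (Fintype.card K ^ (2 * min nR nS)) := lt_min h2 h3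
      have : 0 < 1024 * n ^ 11 *
        min ((nR + nS).choose nR) (Fintype.card K ^ (2 * min nR nS)) * h ^ 8 := by positivity
      exact this
    have h := oneway_two (K := K) k (1024 * n ^ 11 *
        min ((nR + nS).choose nR) (Fintype.card K ^ (2 * min nR nS)) * h ^ 8 * q)
      (fun y => (I y).sim E) (by
        intro y O
        refine (Comp.asked_sim E O _ h1 (fun t => hE1 t O) (I y)).trans ?_
        exact Nat.mul_le_mul_left _ (hI y O))
    simp only [Comp.run_sim] at h
    exact h

end Pool.Agent.LinOT
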