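import Mathlib

set_option autoImplicit false

/-!
# A swapping inequality for almost product matrices
-/

namespace Pool.Agent.LinOT

open Classical

section core

variable {I J : Type} (s : Finset I) (t : Finset J) (n : I → J → ℝ)

/-- Sum over all pairs of pairs of a product which splits. -/
theorem sum_quad (f g : I → J → ℝ) :
    ∑ i ∈ s, ∑ j ∈ t, ∑ i' ∈ s, ∑ j' ∈ t, f i j * g i' j' =
      (∑ i ∈ s, ∑ j ∈ t, f i j) * ∑ i ∈ s, ∑ j ∈ t, g i j := by
  rw [Finset.sum_mul]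
  refine Finset.sum_congr rfl fun i _ => ?_
  rw [Finset.sum_mul]
  refine Finset.sum_congr rfl fun j _ => ?_
  rw [Finset.mul_sum]
  refine Finset.sum_congr rfl fun i' _ => ?_
  rw [Finset.mul_sum]

/-- Sum over all pairs of pairs, the condition being on the first pair, the weight crossed. -/
theorem sum_quad_cross (X : I → J → ℝ) :
    ∑ i ∈ s, ∑ j ∈ t, ∑ i' ∈ s, ∑ j' ∈ t, n i j' * n i' j * X i j =
      ∑ i ∈ s, ∑ j ∈ t, (∑ j' ∈ t, n i j') * (∑ i' ∈ s, n i' j) * X i j := by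
  refine Finset.sum_congr rfl fun i _ => ?_
  refine Finset.sum_congr rfl fun j _ => ?_
  rw [mul_comm (∑ j' ∈ t, n i j'), Finset.sum_mul, Finset.sum_mul]
  refine Finset.sum_congr rfl fun i' _ => ?_
  rw [Finset.mul_sum, Finset.sum_mul]
  refine Finset.sum_congr rfl fun j' _ => ?_
  ring

/-- Sum over all pairs of pairs, the condition being on the pair `(i, j')`. -/
theorem sum_quad_one (X : I → J → ℝ) :
    ∑ i ∈ s, ∑ j ∈ t, ∑ i' ∈ s, ∑ j' ∈ t, n i j * n i' j' * X i j' =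
      ∑ i ∈ s, ∑ j ∈ t, (∑ j' ∈ t, n i j') * (∑ i' ∈ s, n i' j) * X i j := by
  refine Finset.sum_congr rfl fun i _ => ?_
  have h1 : ∀ j ∈ t, ∑ i' ∈ s, ∑ j' ∈ t, n i j * n i' j' * X i j' =
      ∑ j' ∈ t, n i j * ((∑ i' ∈ s, n i' j') * X i j') := by
    intro j _
    rw [Finset.sum_comm]
    refine Finset.sum_congr rfl fun j' _ => ?_
    rw [Finset.sum_mul, Finset.mul_sum]
    refine Finset.sum_congr rfl fun i' _ => ?_
    ring
  rw [Finset.sum_congr rfl h1, Finset.sum_comm]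
  refine Finset.sum_congr rfl fun j' _ => ?_
  rw [← Finset.sum_mul]
  ring

/-- Sum over all pairs of pairs, the condition being on the pair `(i', j)`. -/
theorem sum_quad_two (X : I → J → ℝ) :
    ∑ i ∈ s, ∑ j ∈ t, ∑ i' ∈ s, ∑ j' ∈ t, n i j * n i' j' * X i' j =
      ∑ i ∈ s, ∑ j ∈ t, (∑ j' ∈ t, n i j') * (∑ i' ∈ s, n i' j) * X i j := by
  rw [← sum_quad_one s t n X]
  have h1 : ∑ i ∈ s, ∑ j ∈ t, ∑ i' ∈ s, ∑ j' ∈ t, n i j * n i' j' * X i' j =
      ∑ p ∈ s ×ˢ t, ∑ p' ∈ s ×ˢ t, n p.1 p.2 * n p'.1 p'.2 * X p'.1 p.2 := by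
    rw [Finset.sum_product]
    refine Finset.sum_congr rfl fun i _ => ?_
    refine Finset.sum_congr rfl fun j _ => ?_
    rw [Finset.sum_product]
  have h2 : ∑ i ∈ s, ∑ j ∈ t, ∑ i' ∈ s, ∑ j' ∈ t, n i j * n i' j' * X i j' =
      ∑ p ∈ s ×ˢ t, ∑ p' ∈ s ×ˢ t, n p.1 p.2 * n p'.1 p'.2 * X p.1 p'.2 := by
    rw [Finset.sum_product]
    refine Finset.sum_congr rfl fun i _ => ?_
    refine Finset.sum_congr rfl fun j _ => ?_
    rw [Finset.sum_product]
  rw [h1, h2, Finset.sum_comm]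
  refine Finset.sum_congr rfl fun p _ => ?_
  refine Finset.sum_congr rfl fun p' _ => ?_
  ring

variable (a : I → ℝ) (b : J → ℝ) (X : I → J → ℝ) (q κ : ℝ)

/-- **The bad entries are few.** -/
theorem core_bad (hn : ∀ i j, 0 ≤ n i j) (ha : ∀ i, 0 ≤ a i) (hb : ∀ j, 0 ≤ b j) (hq : 0 ≤ q)
    (hX : ∀ i j, X i j = 0 ∨ X i j = 1)
    (hG : ∀ i ∈ s, ∀ j ∈ t, X i j = 0 → n i j = a i * b j)
    (hB : ∀ i ∈ s, ∀ j ∈ t, n i j ≤ q * (a i * b j))
    (hκ : ∑ i ∈ s, ∑ j ∈ t, (∑ j' ∈ t, n i j') * (∑ i' ∈ s, n i' j) * X i j ≤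
      κ * (∑ i ∈ s, ∑ j ∈ t, n i j) ^ 2) :
    (∑ i ∈ s, ∑ j ∈ t, n i j * X i j) ≤ (q ^ 2 + 2) * κ * ∑ i ∈ s, ∑ j ∈ t, n i j := by
  set N := ∑ i ∈ s, ∑ j ∈ t, n i j with hN
  have hN0 : 0 ≤ N := Finset.sum_nonneg fun i _ => Finset.sum_nonneg fun j _ => hn i j
  have hX0 : ∀ i j, 0 ≤ X i j := by
    intro i j
    rcases hX i j with h | h <;> simp [h]
  have hX1 : ∀ i j, X i j ≤ 1 := by
    intro i j
    rcases hX i j with h | h <;> simp [h]
  set B := ∑ i ∈ s, ∑ j ∈ t, n i j * X i j with hBdef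
  have hBle : B ≤ N := by
    refine Finset.sum_le_sum fun i _ => Finset.sum_le_sum fun j _ => ?_
    calc n i j * X i j ≤ n i j * 1 := mul_le_mul_of_nonneg_left (hX1 i j) (hn i j)
      _ = n i j := mul_one _
  have key : B * N ≤ q ^ 2 * (κ * N ^ 2) + κ * N ^ 2 + κ * N ^ 2 := by
    have h1 : B * N = ∑ i ∈ s, ∑ j ∈ t, ∑ i' ∈ s, ∑ j' ∈ t, (n i j * X i j) * n i' j' :=
      (sum_quad s t (fun i j => n i j * X i j) n).symm
    have h2 : ∑ i ∈ s, ∑ j ∈ t, ∑ i' ∈ s, ∑ j' ∈ t, (n i j * X i j) * n i' j' ≤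
        ∑ i ∈ s, ∑ j ∈ t, ∑ i' ∈ s, ∑ j' ∈ t, (q ^ 2 * (n i j' * n i' j * X i j) +
          n i j * n i' j' * X i j' + n i j * n i' j' * X i' j) := by
      refine Finset.sum_le_sum fun i hi => Finset.sum_le_sum fun j hj =>
        Finset.sum_le_sum fun i' hi' => Finset.sum_le_sum fun j' hj' => ?_
      have p1 : 0 ≤ n i j * n i' j' := mul_nonneg (hn _ _) (hn _ _)
      have p2 : 0 ≤ n i j' * n i' j * X i j := mul_nonneg (mul_nonneg (hn _ _) (hn _ _)) (hX0 _ _)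
      have p3 : 0 ≤ q ^ 2 * (n i j' * n i' j * X i j) := mul_nonneg (sq_nonneg _) p2
      have p4 : n i j * X i j * n i' j' ≤ n i j * n i' j' := by
        calc n i j * X i j * n i' j' = (n i j * n i' j') * X i j := by ring
          _ ≤ (n i j * n i' j') * 1 := mul_le_mul_of_nonneg_left (hX1 i j) p1
          _ = _ := mul_one _
      rcases hX i j' with g1 | g1
      · rcases hX i' j with g2 | g2
        · have e1 := hG i hi j' hj' g1
          have e2 := hG i' hi' j hj g2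
          have e3 := hB i hi j hj
          have e4 := hB i' hi' j' hj'
          have e5 : n i j * n i' j' ≤ (q * (a i * b j)) * (q * (a i' * b j')) :=
            mul_le_mul e3 e4 (hn _ _) (mul_nonneg hq (mul_nonneg (ha _) (hb _)))
          have e6 : (q * (a i * b j)) * (q * (a i' * b j')) = q ^ 2 * (n i j' * n i' j) := by
            rw [e1, e2]; ring
          have e7 : n i j * X i j * n i' j' ≤ q ^ 2 * (n i j' * n i' j * X i j) := by
            calc n i j * X i j * n i' j' = (n i j * n i' j') * X i j := by ring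
              _ ≤ (q ^ 2 * (n i j' * n i' j)) * X i j :=
                mul_le_mul_of_nonneg_right (e5.trans (le_of_eq e6)) (hX0 _ _)
              _ = _ := by ring
          rw [g1, g2]
          linarith
        · have e8 : 0 ≤ n i j * n i' j' * X i j' := mul_nonneg p1 (hX0 _ _)
          rw [g2, mul_one]
          linarith
      · have e8 : 0 ≤ n i j * n i' j' * X i' j := mul_nonneg p1 (hX0 _ _)
        rw [g1, mul_one]
        linarith
    have h3 : ∑ i ∈ s, ∑ j ∈ t, ∑ i' ∈ s, ∑ j' ∈ t, (q ^ 2 * (n i j' * n i' j * X i j) +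
          n i j * n i' j' * X i j' + n i j * n i' j' * X i' j) =
        q ^ 2 * (∑ i ∈ s, ∑ j ∈ t, ∑ i' ∈ s, ∑ j' ∈ t, n i j' * n i' j * X i j) +
          (∑ i ∈ s, ∑ j ∈ t, ∑ i' ∈ s, ∑ j' ∈ t, n i j * n i' j' * X i j') +
          ∑ i ∈ s, ∑ j ∈ t, ∑ i' ∈ s, ∑ j' ∈ t, n i j * n i' j' * X i' j := by
      simp only [Finset.sum_add_distrib, ← Finset.mul_sum]
    rw [sum_quad_cross, sum_quad_one, sum_quad_two] at h3
    rw [h1]
    refine h2.trans (le_of_eq h3 |>.trans ?_)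
    have := mul_le_mul_of_nonneg_left hκ (sq_nonneg q)
    linarith
  rcases eq_or_lt_of_le hN0 with h0 | hpos
  · rw [← h0] at hBle ⊢
    simpa using hBle
  · have : B * N ≤ ((q ^ 2 + 2) * κ * N) * N := by
      refine key.trans (le_of_eq ?_)
      ring
    exact le_of_mul_le_mul_right this hpos

/-- **Almost independence.** -/
theorem core_agree (hn : ∀ i j, 0 ≤ n i j) (ha : ∀ i, 0 ≤ a i) (hb : ∀ j, 0 ≤ b j) (hq : 0 ≤ q)
    (hX : ∀ i j, X i j = 0 ∨ X i j = 1)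
    (hG : ∀ i ∈ s, ∀ j ∈ t, X i j = 0 → n i j = a i * b j)
    (hB : ∀ i ∈ s, ∀ j ∈ t, n i j ≤ q * (a i * b j))
    (hκ : ∑ i ∈ s, ∑ j ∈ t, (∑ j' ∈ t, n i j') * (∑ i' ∈ s, n i' j) * X i j ≤
      κ * (∑ i ∈ s, ∑ j ∈ t, n i j) ^ 2)
    (Y : I → J → ℝ) (hY0 : ∀ i j, 0 ≤ Y i j) (hY1 : ∀ i j, Y i j ≤ 1) (W : ℝ) (hW0 : 0 ≤ W)
    (hW : ∀ i ∈ s, ∑ j ∈ t, (∑ i' ∈ s, n i' j) * Y i j ≤ W) :
    (∑ i ∈ s, ∑ j ∈ t, n i j * Y i j) ≤
      W + (2 * q ^ 2 + 6) * κ * ∑ i ∈ s, ∑ j ∈ t, n i j := by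
  have hbad := core_bad s t n a b X q κ hn ha hb hq hX hG hB hκ
  set N := ∑ i ∈ s, ∑ j ∈ t, n i j with hN
  have hN0 : 0 ≤ N := Finset.sum_nonneg fun i _ => Finset.sum_nonneg fun j _ => hn i j
  have hX0 : ∀ i j, 0 ≤ X i j := by
    intro i j
    rcases hX i j with h | h <;> simp [h]
  have hX1 : ∀ i j, X i j ≤ 1 := by
    intro i j
    rcases hX i j with h | h <;> simp [h]
  set B := ∑ i ∈ s, ∑ j ∈ t, n i j * X i j with hBdef
  set A := ∑ i ∈ s, ∑ j ∈ t, n i j * Y i j with hAdef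
  have hAle : A ≤ N := by
    refine Finset.sum_le_sum fun i _ => Finset.sum_le_sum fun j _ => ?_
    calc n i j * Y i j ≤ n i j * 1 := mul_le_mul_of_nonneg_left (hY1 i j) (hn i j)
      _ = n i j := mul_one _
  have hcross : ∑ i ∈ s, ∑ j ∈ t, (∑ j' ∈ t, n i j') * (∑ i' ∈ s, n i' j) * Y i j ≤ N * W := by
    rw [hN, Finset.sum_mul]
    refine Finset.sum_le_sum fun i hi => ?_
    have e : ∑ j ∈ t, (∑ j' ∈ t, n i j') * (∑ i' ∈ s, n i' j) * Y i j =
        (∑ j' ∈ t, n i j') * ∑ j ∈ t, (∑ i' ∈ s, n i' j) * Y i j := by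
      rw [Finset.mul_sum]
      refine Finset.sum_congr rfl fun j _ => ?_
      ring
    rw [e]
    exact mul_le_mul_of_nonneg_left (hW i hi) (Finset.sum_nonneg fun j _ => hn i j)
  have key : A * N ≤ N * W + B * N + B * N + κ * N ^ 2 + κ * N ^ 2 := by
    have h1 : A * N = ∑ i ∈ s, ∑ j ∈ t, ∑ i' ∈ s, ∑ j' ∈ t, (n i j * Y i j) * n i' j' :=
      (sum_quad s t (fun i j => n i j * Y i j) n).symm
    have h2 : ∑ i ∈ s, ∑ j ∈ t, ∑ i' ∈ s, ∑ j' ∈ t, (n i j * Y i j) * n i' j' ≤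
        ∑ i ∈ s, ∑ j ∈ t, ∑ i' ∈ s, ∑ j' ∈ t, (n i j' * n i' j * Y i j +
          (n i j * X i j) * n i' j' + n i j * (n i' j' * X i' j') +
          n i j * n i' j' * X i j' + n i j * n i' j' * X i' j) := by
      refine Finset.sum_le_sum fun i hi => Finset.sum_le_sum fun j hj =>
        Finset.sum_le_sum fun i' hi' => Finset.sum_le_sum fun j' hj' => ?_
      have p1 : 0 ≤ n i j * n i' j' := mul_nonneg (hn _ _) (hn _ _)
      have p2 : 0 ≤ n i j' * n i' j * Y i j := mul_nonneg (mul_nonneg (hn _ _) (hn _ _)) (hY0 _ _)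
      have p3 : 0 ≤ (n i j * X i j) * n i' j' :=
        mul_nonneg (mul_nonneg (hn _ _) (hX0 _ _)) (hn _ _)
      have p4 : 0 ≤ n i j * (n i' j' * X i' j') :=
        mul_nonneg (hn _ _) (mul_nonneg (hn _ _) (hX0 _ _))
      have p5 : 0 ≤ n i j * n i' j' * X i j' := mul_nonneg p1 (hX0 _ _)
      have p6 : 0 ≤ n i j * n i' j' * X i' j := mul_nonneg p1 (hX0 _ _)
      have p7 : n i j * Y i j * n i' j' ≤ n i j * n i' j' := by
        calc n i j * Y i j * n i' j' = (n i j * n i' j') * Y i j := by ring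
          _ ≤ (n i j * n i' j') * 1 := mul_le_mul_of_nonneg_left (hY1 i j) p1
          _ = _ := mul_one _
      rcases hX i j with g0 | g0
      · rcases hX i' j' with g3 | g3
        · rcases hX i j' with g1 | g1
          · rcases hX i' j with g2 | g2
            · have e1 := hG i hi j' hj' g1
              have e2 := hG i' hi' j hj g2
              have e3 := hG i hi j hj g0
              have e4 := hG i' hi' j' hj' g3
              have e5 : n i j * Y i j * n i' j' = n i j' * n i' j * Y i j := by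
                rw [e1, e2, e3, e4]; ring
              linarith
            · rw [g2, mul_one]
              linarith
          · rw [g1, mul_one]
            linarith
        · rw [g3, mul_one]
          linarith
      · rw [g0, mul_one]
        linarith
    have h3 : ∑ i ∈ s, ∑ j ∈ t, ∑ i' ∈ s, ∑ j' ∈ t, (n i j' * n i' j * Y i j +
          (n i j * X i j) * n i' j' + n i j * (n i' j' * X i' j') +
          n i j * n i' j' * X i j' + n i j * n i' j' * X i' j) =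
        (∑ i ∈ s, ∑ j ∈ t, ∑ i' ∈ s, ∑ j' ∈ t, n i j' * n i' j * Y i j) +
          (∑ i ∈ s, ∑ j ∈ t, ∑ i' ∈ s, ∑ j' ∈ t, (n i j * X i j) * n i' j') +
          (∑ i ∈ s, ∑ j ∈ t, ∑ i' ∈ s, ∑ j' ∈ t, n i j * (n i' j' * X i' j')) +
          (∑ i ∈ s, ∑ j ∈ t, ∑ i' ∈ s, ∑ j' ∈ t, n i j * n i' j' * X i j') +
          ∑ i ∈ s, ∑ j ∈ t, ∑ i' ∈ s, ∑ j' ∈ t, n i j * n i' j' * X i' j := by
      simp only [Finset.sum_add_distrib]
    rw [sum_quad_cross, sum_quad_one, sum_quad_two,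
      sum_quad s t (fun i j => n i j * X i j) n,
      sum_quad s t n (fun i j => n i j * X i j)] at h3
    rw [h1]
    refine h2.trans (le_of_eq h3 |>.trans ?_)
    have e : (∑ i ∈ s, ∑ j ∈ t, n i j) * (∑ i ∈ s, ∑ j ∈ t, n i j * X i j) = B * N :=
      mul_comm _ _
    rw [e]
    linarith
  rcases eq_or_lt_of_le hN0 with h0 | hpos
  · rw [← h0] at hAle ⊢
    simp only [mul_zero, add_zero]
    linarith
  · have : A * N ≤ (W + (2 * q ^ 2 + 6) * κ * N) * N := by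
      nlinarith [key, mul_le_mul_of_nonneg_right hbad hpos.le]
    exact le_of_mul_le_mul_right this hpos

end core

end Pool.Agent.LinOT
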