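import Pool.Agent.Lib.MP_ae38e0_lc.Bounded

set_option autoImplicit false

/-!
# Numbers of oracles with given answers
-/

namespace Pool.Agent.LinOT

open Classical

variable {K : Type} [Field K] {Q : Type} (L : Submodule K (Q → K))

theorem killer_anti {W W' : List Q} (h : ∀ x ∈ W, x ∈ W') : killer L W' ≤ killer L W := by
  rintro D ⟨h1, h2⟩
  exact ⟨h1, fun q hq => h2 q (h q hq)⟩

theorem kc_anti [Finite L] {W W' : List Q} (h : ∀ x ∈ W, x ∈ W') : kc L W' ≤ kc L W := by
  unfold kc
  exact Nat.card_le_card_of_injective (Submodule.inclusion (killer_anti L h))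
    (Submodule.inclusion_injective _)

/-- Asking `T` decreases the number of remaining oracles at most by the factor `|K| ^ |T|`. -/
theorem kc_le_pow [Finite L] [Fintype K] (W T : List Q) :
    kc L W ≤ Fintype.card K ^ T.length * kc L (W ++ T) := by
  induction T generalizing W with
  | nil => simp
  | cons x T ih =>
    have h1 := ih (W ++ [x])
    have h2 : kc L W ≤ Fintype.card K * kc L (W ++ [x]) := by
      -- split by the value at `x`
      unfold kc
      rw [← Nat.card_eq_fintype_card, ← Nat.card_prod]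
      by_cases hex : ∀ D ∈ killer L W, D x = 0
      · refine Nat.card_le_card_of_injective (fun D : killer L W =>
          ((0 : K), (⟨D.1, D.2.1, fun q hq => by
            rcases List.mem_append.mp hq with h | h
            · exact D.2.2 q h
            · rw [List.mem_singleton.mp h]; exact hex D.1 D.2⟩ : killer L (W ++ [x])))) ?_
        intro D D' h
        exact Subtype.ext (congrArg (fun z => (z.2 : Q → K)) h)
      · push Not at hex
        obtain ⟨D0, hD0, hx0⟩ := hex
        have hmem : ∀ D ∈ killer L W, D - (D x / D0 x) • D0 ∈ killer L (W ++ [x]) := by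
          intro D hD
          refine ⟨L.sub_mem hD.1 (L.smul_mem _ hD0.1), ?_⟩
          intro q hq
          rcases List.mem_append.mp hq with h | h
          · simp [hD.2 q h, hD0.2 q h]
          · rw [List.mem_singleton.mp h]
            simp [div_mul_cancel₀ _ hx0]
        refine Nat.card_le_card_of_injective (fun D : killer L W =>
          (D.1 x, (⟨D.1 - (D.1 x / D0 x) • D0, hmem D.1 D.2⟩ : killer L (W ++ [x])))) ?_
        intro D D' h
        simp only [Prod.mk.injEq, Subtype.mk.injEq] at h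
        apply Subtype.ext
        have h3 := h.2
        rw [h.1] at h3
        exact sub_left_injective h3
    calc kc L W ≤ Fintype.card K * kc L (W ++ [x]) := h2
      _ ≤ Fintype.card K * (Fintype.card K ^ T.length * kc L (W ++ [x] ++ T)) :=
        Nat.mul_le_mul_left _ h1
      _ = Fintype.card K ^ (x :: T).length * kc L (W ++ (x :: T)) := by
        rw [List.length_cons, pow_succ, List.append_assoc, List.singleton_append]
        ring

/-- Untouched queries are independent. -/
theorem kc_good [Finite L] {W S T : List Q} (h : ¬ Tch L W S T) :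
    kc L (W ++ (S ++ T)) * kc L W = kc L (W ++ S) * kc L (W ++ T) := by
  have hφ : ∀ (D : killer L W), ∃ D' : killer L (W ++ S), ∀ x ∈ T, D'.1 x = D.1 x := by
    intro D
    unfold Tch at h
    push Not at h
    obtain ⟨D', hD', hT⟩ := h D.1 D.2
    exact ⟨⟨D', hD'⟩, hT⟩
  choose φ hφ using hφ
  unfold kc
  rw [← Nat.card_prod, ← Nat.card_prod]
  have hA : ∀ (E : killer L (W ++ (S ++ T))) (D : killer L W),
      (φ D : Q → K) + E.1 ∈ killer L (W ++ S) := by
    intro E D
    refine (killer L (W ++ S)).add_mem (φ D).2 ⟨E.2.1, fun q hq => E.2.2 q ?_⟩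
    simp only [List.mem_append] at hq ⊢
    tauto
  have hB : ∀ (D : killer L W), D.1 - (φ D : Q → K) ∈ killer L (W ++ T) := by
    intro D
    refine ⟨L.sub_mem D.2.1 (φ D).2.1, ?_⟩
    intro q hq
    rcases List.mem_append.mp hq with h1 | h1
    · simp [D.2.2 q h1, (φ D).2.2 q (List.mem_append_left _ h1)]
    · simp [hφ D q h1]
  have hC : ∀ (X : killer L (W ++ S)) (Y : killer L (W ++ T)), X.1 + Y.1 ∈ killer L W := by
    intro X Y
    exact (killer L W).add_mem (killer_mono L W S X.2) (killer_mono L W T Y.2)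
  have hD : ∀ (X : killer L (W ++ S)) (Y : killer L (W ++ T)),
      X.1 - (φ ⟨X.1 + Y.1, hC X Y⟩ : Q → K) ∈ killer L (W ++ (S ++ T)) := by
    intro X Y
    refine ⟨L.sub_mem X.2.1 (φ _).2.1, ?_⟩
    intro q hq
    simp only [List.mem_append] at hq
    rcases hq with h1 | h1 | h1
    · simp [X.2.2 q (List.mem_append_left _ h1), (φ _).2.2 q (List.mem_append_left _ h1)]
    · simp [X.2.2 q (List.mem_append_right _ h1), (φ _).2.2 q (List.mem_append_right _ h1)]
    · rw [Pi.sub_apply, hφ _ q h1]
      simp [Y.2.2 q (List.mem_append_right _ h1)]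
  refine Nat.card_congr
    { toFun := fun z => (⟨(φ z.2 : Q → K) + z.1.1, hA z.1 z.2⟩,
        ⟨z.2.1 - ((φ z.2 : Q → K) + z.1.1) , ?_⟩)
      invFun := fun z => (⟨z.1.1 - (φ ⟨z.1.1 + z.2.1, hC z.1 z.2⟩ : Q → K), hD z.1 z.2⟩,
        ⟨z.1.1 + z.2.1, hC z.1 z.2⟩)
      left_inv := ?_
      right_inv := ?_ }
  · have h1 := (killer L (W ++ T)).sub_mem (hB z.2)
      (⟨z.1.2.1, fun q hq => z.1.2.2 q (by simp only [List.mem_append] at hq ⊢; tauto)⟩ :
        z.1.1 ∈ killer L (W ++ T))
    have e : z.2.1 - ((φ z.2 : Q → K) + z.1.1) = z.2.1 - (φ z.2 : Q → K) - z.1.1 := by abel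
    rw [e]
    exact h1
  · rintro ⟨E, D⟩
    have e : (⟨(φ D : Q → K) + E.1 + (D.1 - ((φ D : Q → K) + E.1)), hC ⟨_, hA E D⟩ ⟨_, by
        have h1 := (killer L (W ++ T)).sub_mem (hB D)
          (⟨E.2.1, fun q hq => E.2.2 q (by simp only [List.mem_append] at hq ⊢; tauto)⟩ :
            E.1 ∈ killer L (W ++ T))
        have e : D.1 - ((φ D : Q → K) + E.1) = D.1 - (φ D : Q → K) - E.1 := by abel
        rw [e]
        exact h1⟩⟩ : killer L W) = D := Subtype.ext (by simp)
    simp only [e, Prod.mk.injEq]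
    refine ⟨Subtype.ext ?_, trivial⟩
    simp
  · rintro ⟨X, Y⟩
    simp only [Prod.mk.injEq]
    refine ⟨Subtype.ext ?_, Subtype.ext ?_⟩
    · simp
    · simp

variable [Fintype L]

/-- The number of oracles with given answers. -/
theorem card_cons (kn : List (Q × K)) (O0 : L) (h0 : Cons kn (O0 : Q → K)) :
    (Finset.univ.filter fun O : L => Cons kn (O : Q → K)).card = kc L (kn.map Prod.fst) := by
  unfold kc
  rw [← Fintype.card_subtype, ← Nat.card_eq_fintype_card]
  refine Nat.card_congr
    { toFun := fun O => ⟨(O.1 : Q → K) - (O0 : Q → K), L.sub_mem O.1.2 O0.2, ?_⟩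
      invFun := fun D => ⟨⟨D.1 + (O0 : Q → K), L.add_mem D.2.1 O0.2⟩, ?_⟩
      left_inv := ?_
      right_inv := ?_ }
  · intro x hx
    obtain ⟨w, hw, rfl⟩ := List.mem_map.mp hx
    simp [O.2 w hw, h0 w hw]
  · intro w hw
    have := D.2.2 w.1 (List.mem_map.mpr ⟨w, hw, rfl⟩)
    simp [this, h0 w hw]
  · intro O
    apply Subtype.ext
    apply Subtype.ext
    simp
  · intro D
    apply Subtype.ext
    simp

omit [Fintype L] in
/-- Merging two oracles on untouched queries. -/
theorem merge {kn : List (Q × K)} {S T : List Q} (h : ¬ Tch L (kn.map Prod.fst) S T)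
    (O1 O2 : L) (h1 : Cons kn (O1 : Q → K)) (h2 : Cons kn (O2 : Q → K)) :
    ∃ O : L, Cons kn (O : Q → K) ∧ (∀ x ∈ S, (O : Q → K) x = (O1 : Q → K) x) ∧
      ∀ x ∈ T, (O : Q → K) x = (O2 : Q → K) x := by
  unfold Tch at h
  push Not at h
  obtain ⟨D', hD', hT⟩ := h ((O2 : Q → K) - (O1 : Q → K)) ⟨L.sub_mem O2.2 O1.2, by
    intro x hx
    obtain ⟨w, hw, rfl⟩ := List.mem_map.mp hx
    simp [h1 w hw, h2 w hw]⟩
  refine ⟨⟨(O1 : Q → K) + D', L.add_mem O1.2 hD'.1⟩, ?_, ?_, ?_⟩
  · intro w hw
    have := hD'.2 w.1 (List.mem_append_left _ (List.mem_map.mpr ⟨w, hw, rfl⟩))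
    simp [this, h1 w hw]
  · intro x hx
    have := hD'.2 x (List.mem_append_right _ hx)
    simp [this]
  · intro x hx
    have := hT x hx
    simp [this]

end Pool.Agent.LinOT
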