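import Pool.Agent.Lib.MP_ae38e0_lc.Few.Core
import Pool.Agent.Lib.MP_ae38e0_lc.Few.Count

set_option autoImplicit false

/-!
# The final state: views, and their almost independence
-/

namespace Pool.Agent.LinOT

open Classical

variable {K : Type} [Field K] {Q St R RA RB StA StB σ : Type}

/-- The queries of a side with their answers. -/
def Side.log (S : Side Q K St R) (r : R) (O : Q → K) : List (Q × K) :=
  (S.q r O).map fun x => (x, O x)

omit [Field K] in
theorem log_fst (S : Side Q K St R) (r : R) (O : Q → K) :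
    (S.log r O).map Prod.fst = S.q r O := by
  simp [Side.log, Function.comp_def]

omit [Field K] in
theorem cons_log (S : Side Q K St R) (r : R) (O O' : Q → K) :
    Cons (S.log r O) O' ↔ ∀ x ∈ S.q r O, O' x = O x := by
  simp [Cons, Side.log]

omit [Field K] in
theorem log_cons_self (S : Side Q K St R) (r : R) (O : Q → K) : Cons (S.log r O) O := by
  rw [cons_log]
  intro x _
  rfl

omit [Field K] in
theorem log_loc (S : Side Q K St R) (hS : S.Loc) (r : R) (O O' : Q → K)
    (h : Cons (S.log r O) O') :
    S.log r O' = S.log r O ∧ S.s r O' = S.s r O ∧ (S.P r O' ↔ S.P r O) := by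
  rw [cons_log] at h
  have h1 := hS r O O' (fun x hx => (h x hx).symm)
  refine ⟨?_, h1.1.symm, h1.2.2.symm⟩
  unfold Side.log
  rw [← h1.2.1]
  exact List.map_congr_left fun x hx => by rw [h x hx]

omit [Field K] in
theorem cons_of_log (S : Side Q K St R) (r : R) (O O' : Q → K) (h : S.log r O' = S.log r O) :
    Cons (S.log r O) O' := by
  rw [← h]
  exact log_cons_self S r O'

/-- The most frequent value of a function. -/
noncomputable def best {Ω : Type} [Nonempty σ] (s : Finset Ω) (f : Ω → σ) : σ :=
  Function.argmin (fun v => s.card - (s.filter fun w => f w = v).card)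

theorem best_max {Ω : Type} [Nonempty σ] (s : Finset Ω) (f : Ω → σ) (v : σ) :
    (s.filter fun w => f w = v).card ≤ (s.filter fun w => f w = best s f).card := by
  have h := Function.argmin_le (fun v => s.card - (s.filter fun w => f w = v).card) v
  have h1 := Finset.card_filter_le s (fun w => f w = v)
  have h2 := Finset.card_filter_le s (fun w => f w = best s f)
  unfold best at h2 ⊢
  omega

section views

variable (L : Submodule K (Q → K)) [Fintype L] [Fintype RA] [Fintype RB]
variable (SA : Side Q K StA RA) (SB : Side Q K StB RB)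

/-- The view of the first party. -/
def vA (w : RA × RB × L) : RA × List (Q × K) := (w.1, SA.log w.1 w.2.2)

/-- The view of the second party. -/
def vB (w : RA × RB × L) : RB × List (Q × K) := (w.2.1, SB.log w.2.1 w.2.2)

/-- The number of real executions with given views. -/
noncomputable def nv (kn : List (Q × K)) (i : RA × List (Q × K)) (j : RB × List (Q × K)) : ℕ :=
  ((cs L orc (real L SA SB) kn).filter fun w => vA L SA w = i ∧ vB L SB w = j).card

theorem nv_eq (hA : SA.Loc) (hB : SB.Loc) (kn : List (Q × K)) (w1 w2 : RA × RB × L)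
    (h1 : w1 ∈ cs L orc (real L SA SB) kn) (h2 : w2 ∈ cs L orc (real L SA SB) kn) :
    nv L SA SB kn (vA L SA w1) (vB L SB w2) =
      (Finset.univ.filter fun O : L => Cons (kn ++ (SA.log w1.1 w1.2.2 ++
        SB.log w2.2.1 w2.2.2)) (O : Q → K)).card := by
  unfold nv
  have m1 := (mem_cs L).mp h1
  have m2 := (mem_cs L).mp h2
  refine Finset.card_bij' (fun w _ => w.2.2) (fun O _ => (w1.1, w2.2.1, O)) ?_ ?_ ?_ ?_
  · intro w hw
    obtain ⟨hw1, hw2, hw3⟩ := Finset.mem_filter.mp hw
    have m := (mem_cs L).mp hw1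
    simp only [vA, vB, Prod.mk.injEq] at hw2 hw3
    rw [Finset.mem_filter]
    refine ⟨Finset.mem_univ _, ?_⟩
    rw [cons_append, cons_append]
    refine ⟨m.2, ?_, ?_⟩
    · have := hw2.2
      rw [hw2.1] at this
      exact cons_of_log SA w1.1 _ _ this
    · have := hw3.2
      rw [hw3.1] at this
      exact cons_of_log SB w2.2.1 _ _ this
  · intro O hO
    have hO' := (Finset.mem_filter.mp hO).2
    rw [cons_append, cons_append] at hO'
    have lA := log_loc SA hA w1.1 w1.2.2 O hO'.2.1
    have lB := log_loc SB hB w2.2.1 w2.2.2 O hO'.2.2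
    rw [Finset.mem_filter]
    refine ⟨?_, ?_, ?_⟩
    · rw [mem_cs]
      refine ⟨⟨?_, ?_⟩, hO'.1⟩
      · exact lA.2.2.mpr m1.1.1
      · exact lB.2.2.mpr m2.1.2
    · simp only [vA, lA.1]
    · simp only [vB, lB.1]
  · intro w hw
    obtain ⟨hw1, hw2, hw3⟩ := Finset.mem_filter.mp hw
    simp only [vA, vB, Prod.mk.injEq] at hw2 hw3
    rw [← hw2.1, ← hw3.1]
  · intro O _
    rfl

theorem nv_good (hA : SA.Loc) (hB : SB.Loc) (kn : List (Q × K)) (w1 w2 : RA × RB × L)
    (h1 : w1 ∈ cs L orc (real L SA SB) kn) (h2 : w2 ∈ cs L orc (real L SA SB) kn)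
    (hT : ¬ Tch L (kn.map Prod.fst) (SA.q w1.1 w1.2.2) (SB.q w2.2.1 w2.2.2)) :
    nv L SA SB kn (vA L SA w1) (vB L SB w2) * kc L (kn.map Prod.fst) =
      kc L (kn.map Prod.fst ++ SA.q w1.1 w1.2.2) * kc L (kn.map Prod.fst ++ SB.q w2.2.1 w2.2.2) := by
  have m1 := (mem_cs L).mp h1
  have m2 := (mem_cs L).mp h2
  obtain ⟨O, hO1, hO2, hO3⟩ := merge L hT w1.2.2 w2.2.2 m1.2 m2.2
  have hO : Cons (kn ++ (SA.log w1.1 w1.2.2 ++ SB.log w2.2.1 w2.2.2)) (O : Q → K) := by
    rw [cons_append, cons_append]
    exact ⟨hO1, (cons_log _ _ _ _).mpr hO2, (cons_log _ _ _ _).mpr hO3⟩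
  rw [nv_eq L SA SB hA hB kn w1 w2 h1 h2, card_cons L _ O hO, List.map_append, List.map_append,
    log_fst, log_fst]
  exact kc_good L hT

theorem nv_le [Fintype K] (hA : SA.Loc) (hB : SB.Loc) (kn : List (Q × K)) (w1 w2 : RA × RB × L)
    (h1 : w1 ∈ cs L orc (real L SA SB) kn) (h2 : w2 ∈ cs L orc (real L SA SB) kn) (m : ℕ)
    (hm : (SA.q w1.1 w1.2.2).length ≤ m ∨ (SB.q w2.2.1 w2.2.2).length ≤ m) :
    nv L SA SB kn (vA L SA w1) (vB L SB w2) * kc L (kn.map Prod.fst) ≤
      Fintype.card K ^ m * (kc L (kn.map Prod.fst ++ SA.q w1.1 w1.2.2) *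
        kc L (kn.map Prod.fst ++ SB.q w2.2.1 w2.2.2)) := by
  set W := kn.map Prod.fst with hW
  set S := SA.q w1.1 w1.2.2 with hS
  set T := SB.q w2.2.1 w2.2.2 with hTdef
  have hq : 1 ≤ Fintype.card K := Fintype.card_pos
  have e0 : nv L SA SB kn (vA L SA w1) (vB L SB w2) ≤ kc L (W ++ (S ++ T)) := by
    rw [nv_eq L SA SB hA hB kn w1 w2 h1 h2]
    rcases (Finset.univ.filter fun O : L => Cons (kn ++ (SA.log w1.1 w1.2.2 ++
        SB.log w2.2.1 w2.2.2)) (O : Q → K)).eq_empty_or_nonempty with h0 | ⟨O, hO⟩
    · rw [h0]; simp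
    · rw [card_cons L _ O (Finset.mem_filter.mp hO).2, List.map_append, List.map_append,
        log_fst, log_fst]
  rcases hm with hm | hm
  · have e1 : kc L (W ++ (S ++ T)) ≤ kc L (W ++ T) := kc_anti L (by
      intro x hx; simp only [List.mem_append] at hx ⊢; tauto)
    have e2 := kc_le_pow L W S
    have e3 : Fintype.card K ^ S.length ≤ Fintype.card K ^ m := Nat.pow_le_pow_right hq hm
    calc nv L SA SB kn (vA L SA w1) (vB L SB w2) * kc L W ≤
        kc L (W ++ T) * (Fintype.card K ^ m * kc L (W ++ S)) := by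
          apply Nat.mul_le_mul (e0.trans e1)
          exact e2.trans (Nat.mul_le_mul_right _ e3)
      _ = _ := by ring
  · have e1 : kc L (W ++ (S ++ T)) ≤ kc L (W ++ S) := kc_anti L (by
      intro x hx; simp only [List.mem_append] at hx ⊢; tauto)
    have e2 := kc_le_pow L W T
    have e3 : Fintype.card K ^ T.length ≤ Fintype.card K ^ m := Nat.pow_le_pow_right hq hm
    calc nv L SA SB kn (vA L SA w1) (vB L SB w2) * kc L W ≤
        kc L (W ++ S) * (Fintype.card K ^ m * kc L (W ++ T)) := by
          apply Nat.mul_le_mul (e0.trans e1)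
          exact e2.trans (Nat.mul_le_mul_right _ e3)
      _ = _ := by ring

/-- Sums over views. -/
theorem sum_views (kn : List (Q × K)) (F : RA × List (Q × K) → RB × List (Q × K) → ℝ) :
    ∑ i ∈ (cs L orc (real L SA SB) kn).image (vA L SA),
      ∑ j ∈ (cs L orc (real L SA SB) kn).image (vB L SB), (nv L SA SB kn i j : ℝ) * F i j =
      ∑ w ∈ cs L orc (real L SA SB) kn, F (vA L SA w) (vB L SB w) := by
  set s := cs L orc (real L SA SB) kn with hs
  rw [← Finset.sum_fiberwise_of_maps_to (s := s) (t := s.image (vA L SA)) (g := vA L SA)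
    (fun x hx => Finset.mem_image_of_mem _ hx)]
  refine Finset.sum_congr rfl fun i _ => ?_
  rw [← Finset.sum_fiberwise_of_maps_to (s := s.filter fun w => vA L SA w = i)
    (t := s.image (vB L SB)) (g := vB L SB)
    (fun x hx => Finset.mem_image_of_mem _ (Finset.mem_filter.mp hx).1)]
  refine Finset.sum_congr rfl fun j _ => ?_
  rw [Finset.filter_filter]
  have : ∀ w ∈ s.filter (fun w => vA L SA w = i ∧ vB L SB w = j),
      F (vA L SA w) (vB L SB w) = F i j := by
    intro w hw
    obtain ⟨-, h1, h2⟩ := Finset.mem_filter.mp hw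
    rw [h1, h2]
  rw [Finset.sum_congr rfl this, Finset.sum_const, nsmul_eq_mul]
  rfl

theorem sum_nv_right (kn : List (Q × K)) (i : RA × List (Q × K)) :
    ∑ j ∈ (cs L orc (real L SA SB) kn).image (vB L SB), (nv L SA SB kn i j : ℝ) =
      (((cs L orc (real L SA SB) kn).filter fun w => vA L SA w = i).card : ℝ) := by
  set s := cs L orc (real L SA SB) kn with hs
  have h := Finset.card_eq_sum_card_fiberwise (s := s.filter fun w => vA L SA w = i)
    (t := s.image (vB L SB)) (f := vB L SB)
    (fun x hx => Finset.mem_coe.mpr (Finset.mem_image_of_mem _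
      (Finset.mem_filter.mp (Finset.mem_coe.mp hx)).1))
  rw [h]
  push_cast
  refine Finset.sum_congr rfl fun j _ => ?_
  rw [Finset.filter_filter]
  rfl

theorem sum_nv_left (kn : List (Q × K)) (j : RB × List (Q × K)) :
    ∑ i ∈ (cs L orc (real L SA SB) kn).image (vA L SA), (nv L SA SB kn i j : ℝ) =
      (((cs L orc (real L SA SB) kn).filter fun w => vB L SB w = j).card : ℝ) := by
  set s := cs L orc (real L SA SB) kn with hs
  have h := Finset.card_eq_sum_card_fiberwise (s := s.filter fun w => vB L SB w = j)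
    (t := s.image (vA L SA)) (f := vA L SA)
    (fun x hx => Finset.mem_coe.mpr (Finset.mem_image_of_mem _
      (Finset.mem_filter.mp (Finset.mem_coe.mp hx)).1))
  rw [h]
  push_cast
  refine Finset.sum_congr rfl fun i _ => ?_
  rw [Finset.filter_filter]
  unfold nv
  congr 2
  ext w
  simp only [Finset.mem_filter, ← hs]
  tauto

/-- Summing a function of the view over a set of executions. -/
theorem sum_fib {Ω V : Type} [DecidableEq V] (s : Finset Ω) (v : Ω → V) (f : V → ℝ) :
    ∑ i ∈ s.image v, ((s.filter fun w => v w = i).card : ℝ) * f i = ∑ w ∈ s, f (v w) := by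
  rw [← Finset.sum_fiberwise_of_maps_to (s := s) (t := s.image v) (g := v)
    (fun x hx => Finset.mem_image_of_mem _ hx)]
  refine Finset.sum_congr rfl fun i _ => ?_
  have : ∀ w ∈ s.filter (fun w => v w = i), f (v w) = f i := by
    intro w hw
    rw [(Finset.mem_filter.mp hw).2]
  rw [Finset.sum_congr rfl this, Finset.sum_const, nsmul_eq_mul]

/-- No short list of queries touches the second party in many real executions. -/
def ClosedR {Ω : Type} [Fintype Ω] (o : Ω → L) (PR : Ω → Prop) (qq : Ω → List Q) (h D : ℕ)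
    (kn : List (Q × K)) : Prop :=
  ∀ S : List Q, S.length ≤ D →
    h * ((cs L o PR kn).filter fun w => Tch L (kn.map Prod.fst) S (qq w)).card ≤
      (cs L o PR kn).card

/-- **The final state.** -/
theorem leaf_few [Fintype K] [Nonempty σ] (hA : SA.Loc) (hB : SB.Loc)
    (outA : RA → StA → Option σ) (outB : RB → StB → σ) (n m h : ℕ) (hh : 0 < h)
    (hn : ∀ (r : RA) (O : L), (SA.q r O).length ≤ n)
    (hm : (∀ (r : RA) (O : L), (SA.q r O).length ≤ m) ∨
      ∀ (r : RB) (O : L), (SB.q r O).length ≤ m) (kn : List (Q × K))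
    (hc : ClosedR L orc (real L SA SB) (fun w : RA × RB × L => SB.q w.2.1 w.2.2) h n kn) :
    (((cs L orc (real L SA SB) kn).filter fun w =>
        outA w.1 (SA.s w.1 w.2.2) = some (outB w.2.1 (SB.s w.2.1 w.2.2))).card : ℝ) ≤
      (((cs L orc (real L SA SB) kn).filter fun w => outB w.2.1 (SB.s w.2.1 w.2.2) =
        best (cs L orc (real L SA SB) kn) (fun w => outB w.2.1 (SB.s w.2.1 w.2.2))).card : ℝ) +
        (2 * ((Fintype.card K : ℝ) ^ m) ^ 2 + 6) * (1 / h) * (cs L orc (real L SA SB) kn).card := by
  set s := cs L orc (real L SA SB) kn with hs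
  set W := kn.map Prod.fst with hW
  have hh' : (0 : ℝ) < h := by exact_mod_cast hh
  have hkc : (0 : ℝ) < kc L W := by exact_mod_cast kc_pos L W
  set fA : RA × RB × L → Option σ := fun w => outA w.1 (SA.s w.1 w.2.2) with hfA
  set fB : RA × RB × L → σ := fun w => outB w.2.1 (SB.s w.2.1 w.2.2) with hfB
  have ftA : Function.FactorsThrough fA (vA L SA) := by
    intro w w' hw
    simp only [vA, Prod.mk.injEq] at hw
    have h1 := hw.2
    rw [hw.1] at h1
    have := (log_loc SA hA w'.1 w'.2.2 w.2.2 (cons_of_log SA _ _ _ h1)).2.1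
    simp only [hfA]
    rw [hw.1, this]
  have ftB : Function.FactorsThrough fB (vB L SB) := by
    intro w w' hw
    simp only [vB, Prod.mk.injEq] at hw
    have h1 := hw.2
    rw [hw.1] at h1
    have := (log_loc SB hB w'.2.1 w'.2.2 w.2.2 (cons_of_log SB _ _ _ h1)).2.1
    simp only [hfB]
    rw [hw.1, this]
  set gA : RA × List (Q × K) → Option σ := Function.extend (vA L SA) fA (fun _ => none) with hgA
  set gB : RB × List (Q × K) → σ :=
    Function.extend (vB L SB) fB (fun _ => Classical.arbitrary σ) with hgB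
  have egA : ∀ w, gA (vA L SA w) = fA w := fun w => ftA.extend_apply _ w
  have egB : ∀ w, gB (vB L SB w) = fB w := fun w => ftB.extend_apply _ w
  set X : RA × List (Q × K) → RB × List (Q × K) → ℝ := fun i j =>
    if Tch L W (i.2.map Prod.fst) (j.2.map Prod.fst) then (1 : ℝ) else 0 with hX
  set Y : RA × List (Q × K) → RB × List (Q × K) → ℝ := fun i j =>
    if gA i = some (gB j) then (1 : ℝ) else 0 with hY
  have hsum := sum_views L SA SB kn (fun _ _ => 1)
  simp only [mul_one, Finset.sum_const, nsmul_eq_mul] at hsum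
  have hagree := sum_views L SA SB kn Y
  have hagree' : ∑ w ∈ s, Y (vA L SA w) (vB L SB w) =
      ((s.filter fun w => fA w = some (fB w)).card : ℝ) := by
    simp only [hY, egA, egB]
    rw [Finset.sum_ite, Finset.sum_const_zero, add_zero, Finset.sum_const, nsmul_eq_mul, mul_one]
  have hcore := core_agree (s.image (vA L SA)) (s.image (vB L SB))
    (fun i j => (nv L SA SB kn i j : ℝ))
    (fun i => (kc L (W ++ i.2.map Prod.fst) : ℝ))
    (fun j => (kc L (W ++ j.2.map Prod.fst) : ℝ) / kc L W) X ((Fintype.card K : ℝ) ^ m) (1 / h)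
    (fun _ _ => Nat.cast_nonneg _) (fun _ => Nat.cast_nonneg _)
    (fun _ => div_nonneg (Nat.cast_nonneg _) (Nat.cast_nonneg _)) (by positivity)
    (fun i j => by simp only [hX]; split_ifs <;> simp)
    (by
      intro i hi j hj hg
      obtain ⟨w1, hw1, rfl⟩ := Finset.mem_image.mp hi
      obtain ⟨w2, hw2, rfl⟩ := Finset.mem_image.mp hj
      simp only [hX, vA, vB, log_fst, ite_eq_right_iff, one_ne_zero, imp_false] at hg
      have := nv_good L SA SB hA hB kn w1 w2 hw1 hw2 hg
      simp only [vA, vB, log_fst] at this ⊢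
      rw [← mul_div_assoc, eq_div_iff hkc.ne']
      exact_mod_cast this)
    (by
      intro i hi j hj
      obtain ⟨w1, hw1, rfl⟩ := Finset.mem_image.mp hi
      obtain ⟨w2, hw2, rfl⟩ := Finset.mem_image.mp hj
      have := nv_le L SA SB hA hB kn w1 w2 hw1 hw2 m (by
        rcases hm with h1 | h1
        · exact Or.inl (h1 _ _)
        · exact Or.inr (h1 _ _))
      simp only [vA, vB, log_fst] at this ⊢
      rw [← mul_div_assoc, ← mul_div_assoc, le_div_iff₀ hkc]
      exact_mod_cast this)
    (by
      -- closedness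
      have e1 : ∀ i j, (∑ j' ∈ s.image (vB L SB), (nv L SA SB kn i j' : ℝ)) *
          (∑ i' ∈ s.image (vA L SA), (nv L SA SB kn i' j : ℝ)) * X i j =
          ((s.filter fun w => vA L SA w = i).card : ℝ) *
            (((s.filter fun w => vB L SB w = j).card : ℝ) * X i j) := by
        intro i j
        rw [sum_nv_right, sum_nv_left, mul_assoc]
      refine le_trans (le_of_eq (Finset.sum_congr rfl fun i _ =>
        Finset.sum_congr rfl fun j _ => e1 i j)) ?_
      rw [hsum]
      have e2 : ∀ i, ∑ j ∈ s.image (vB L SB), ((s.filter fun w => vA L SA w = i).card : ℝ) *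
            (((s.filter fun w => vB L SB w = j).card : ℝ) * X i j) =
          ((s.filter fun w => vA L SA w = i).card : ℝ) * ∑ w' ∈ s, X i (vB L SB w') := by
        intro i
        rw [← Finset.mul_sum, sum_fib s (vB L SB) (fun j => X i j)]
      simp only [e2]
      rw [sum_fib s (vA L SA) (fun i => ∑ w' ∈ s, X i (vB L SB w'))]
      have e3 : ∀ w ∈ s, ∑ w' ∈ s, X (vA L SA w) (vB L SB w') ≤ 1 / h * s.card := by
        intro w _
        have h1 := hc (SA.q w.1 w.2.2) (hn w.1 w.2.2)
        have h2 : ∑ w' ∈ s, X (vA L SA w) (vB L SB w') =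
            ((s.filter fun w' => Tch L W (SA.q w.1 w.2.2) (SB.q w'.2.1 w'.2.2)).card : ℝ) := by
          rw [Finset.card_filter]
          push_cast
          refine Finset.sum_congr rfl fun w' _ => ?_
          simp only [hX, vA, vB, log_fst]
        rw [h2, one_div, inv_mul_eq_div, le_div_iff₀ hh', mul_comm]
        exact_mod_cast h1
      refine (Finset.sum_le_sum e3).trans (le_of_eq ?_)
      rw [Finset.sum_const, nsmul_eq_mul]
      ring)
    Y (fun i j => by simp only [hY]; split_ifs <;> norm_num)
    (fun i j => by simp only [hY]; split_ifs <;> norm_num)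
    ((s.filter fun w => fB w = best s fB).card : ℝ) (Nat.cast_nonneg _)
    (by
      intro i _
      have e5 : ∀ j, (∑ i' ∈ s.image (vA L SA), (nv L SA SB kn i' j : ℝ)) =
          ((s.filter fun w => vB L SB w = j).card : ℝ) := fun j => sum_nv_left L SA SB kn j
      refine le_trans (le_of_eq (Finset.sum_congr rfl fun j _ =>
        congrArg (fun z => z * Y i j) (e5 j))) ?_
      rw [sum_fib s (vB L SB) (fun j => Y i j)]
      simp only [hY, egB]
      rw [Finset.sum_ite, Finset.sum_const_zero, add_zero, Finset.sum_const, nsmul_eq_mul, mul_one]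
      rcases hv : gA i with _ | v
      · simp
      · have h2 : ((s.filter fun w => fB w = v).card : ℝ) ≤
            ((s.filter fun w => fB w = best s fB).card : ℝ) := by
          exact_mod_cast best_max s fB v
        refine le_trans ?_ h2
        exact_mod_cast Finset.card_le_card (by
          intro x hx
          rw [Finset.mem_filter] at hx ⊢
          exact ⟨hx.1, (Option.some.inj hx.2).symm⟩))
  rw [hagree, hagree', hsum] at hcore
  exact hcore

end views

end Pool.Agent.LinOT
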