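import Pool.Agent.Lib.MP_ae38e0_lc.Few.Leaf

set_option autoImplicit false

/-!
# Closing with respect to the real executions
-/

namespace Pool.Agent.LinOT

open Classical

variable {K : Type} [Field K] {Q : Type} (L : Submodule K (Q → K)) [Fintype L]

section loop

variable {Ω : Type} [Fintype Ω] (o : Ω → L) (PR : Ω → Prop) (qq : Ω → List Q) (h D : ℕ)

/-- The closing loop. -/
noncomputable def closeR : ℕ → List (Q × K) → Comp Q K (List (Q × K))
  | 0, kn => .ret kn
  | j + 1, kn =>
    if hS : ∃ S : List Q, S.length ≤ D ∧ (cs L o PR kn).card <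
        h * ((cs L o PR kn).filter fun w => Tch L (kn.map Prod.fst) S (qq w)).card then
      (Comp.askAll hS.choose).bind fun ans => closeR j (kn ++ hS.choose.zip ans)
    else .ret kn

theorem closeR_asked (O : Q → K) (j : ℕ) :
    ∀ kn, ((closeR L o PR qq h D j kn).asked O).length ≤ j * D := by
  induction j with
  | zero => intro kn; simp [closeR]
  | succ j ih =>
    intro kn
    unfold closeR
    split_ifs with hS
    · have h1 := ih (kn ++ hS.choose.zip (hS.choose.map O))
      have h2 := hS.choose_spec.1
      simp only [Comp.asked_bind, Comp.asked_askAll, Comp.run_askAll, List.length_append]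
      rw [Nat.succ_mul]
      omega
    · simp

/-- **The closing phase.** -/
theorem phaseR (n g : ℕ) (hn0 : 0 < n) (hg0 : 0 < g) (hh : 0 < h)
    (hn : ∀ w, (qq w).length ≤ n)
    (G : List (Q × K) → Ω → ℝ) (hG : ∀ kn ω, -1 ≤ G kn ω) (η : ℝ) (hη : 0 ≤ η)
    (hyp : ∀ kn : List (Q × K), ClosedR L o PR qq h D kn →
      -(η * (cs L o PR kn).card) ≤ ∑ ω ∈ cs L o PR kn, G kn ω) (kn : List (Q × K)) :
    -((η + 1 / g) * (cs L o PR kn).card) ≤
      ∑ ω ∈ cs L o PR kn, G ((closeR L o PR qq h D (n * h * g) kn).run (o ω : Q → K)) ω := by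
  have hh' : (0 : ℝ) < h := by exact_mod_cast hh
  have hg' : (0 : ℝ) < g := by exact_mod_cast hg0
  have key : ∀ j : ℕ, ∀ kn : List (Q × K),
      ∃ u : ℝ, 0 ≤ u ∧ u ≤ (cs L o PR kn).card ∧
        (j : ℝ) * u ≤ h * ∑ p ∈ cs L o PR kn, (rk L (qq p) (kn.map Prod.fst) : ℝ) ∧
        -(η * (cs L o PR kn).card) - u ≤
          ∑ ω ∈ cs L o PR kn, G ((closeR L o PR qq h D j kn).run (o ω : Q → K)) ω := by
    intro j
    induction j with
    | zero =>
      intro kn
      by_cases hc : ClosedR L o PR qq h D kn
      · refine ⟨0, le_refl _, Nat.cast_nonneg _, ?_, ?_⟩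
        · simp only [CharP.cast_eq_zero, zero_mul]
          positivity
        · simp only [closeR, Comp.run_ret, sub_zero]
          exact hyp kn hc
      · refine ⟨(cs L o PR kn).card, Nat.cast_nonneg _, le_refl _, ?_, ?_⟩
        · simp only [CharP.cast_eq_zero, zero_mul]
          positivity
        · have := Finset.card_nsmul_le_sum (cs L o PR kn)
            (fun ω => G ((closeR L o PR qq h D 0 kn).run (o ω : Q → K)) ω) (-1)
            (fun ω _ => hG _ _)
          have h1 : 0 ≤ η * (cs L o PR kn).card := by positivity
          simp only [nsmul_eq_mul, mul_neg, mul_one] at this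
          linarith
    | succ j ih =>
      intro kn
      by_cases hc : ClosedR L o PR qq h D kn
      · have hno : ¬ ∃ S : List Q, S.length ≤ D ∧ (cs L o PR kn).card <
            h * ((cs L o PR kn).filter fun w => Tch L (kn.map Prod.fst) S (qq w)).card := by
          rintro ⟨S, h1, h2⟩
          exact absurd (hc S h1) (not_le.mpr h2)
        refine ⟨0, le_refl _, Nat.cast_nonneg _, ?_, ?_⟩
        · rw [mul_zero]
          positivity
        · simp only [closeR, dif_neg hno, Comp.run_ret, sub_zero]
          exact hyp kn hc
      · have hex : ∃ S : List Q, S.length ≤ D ∧ (cs L o PR kn).card <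
            h * ((cs L o PR kn).filter fun w => Tch L (kn.map Prod.fst) S (qq w)).card := by
          unfold ClosedR at hc
          push Not at hc
          exact hc
        have hrun : ∀ O : Q → K, (closeR L o PR qq h D (j + 1) kn).run O =
            (closeR L o PR qq h D j (kn ++ hex.choose.zip (hex.choose.map O))).run O := by
          intro O
          conv_lhs => unfold closeR
          rw [dif_pos hex]
          simp only [Comp.run_bind, Comp.run_askAll]
        obtain ⟨hS1, hS2⟩ := hex.choose_spec
        set S := hex.choose with hS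
        have ih' : ∀ a : List K, ∃ u : ℝ, 0 ≤ u ∧
            u ≤ (cs L o PR (kn ++ S.zip a)).card ∧
            (j : ℝ) * u ≤ h * ∑ p ∈ cs L o PR (kn ++ S.zip a),
              (rk L (qq p) ((kn ++ S.zip a).map Prod.fst) : ℝ) ∧
            -(η * (cs L o PR (kn ++ S.zip a)).card) - u ≤
              ∑ ω ∈ cs L o PR (kn ++ S.zip a),
                G ((closeR L o PR qq h D j (kn ++ S.zip a)).run (o ω : Q → K)) ω :=
          fun a => ih (kn ++ S.zip a)
        choose u hu using ih'
        have hsR : ∑ a ∈ answers L S, ((cs L o PR (kn ++ S.zip a)).card : ℝ) =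
            (cs L o PR kn).card := card_answers L o PR kn S
        have hrk : ∑ a ∈ answers L S, ∑ p ∈ cs L o PR (kn ++ S.zip a),
              (rk L (qq p) ((kn ++ S.zip a).map Prod.fst) : ℝ) =
            ∑ p ∈ cs L o PR kn, (rk L (qq p) (kn.map Prod.fst ++ S) : ℝ) := by
          refine Eq.trans ?_ (sum_answers L o PR kn S
            (fun p => (rk L (qq p) (kn.map Prod.fst ++ S) : ℝ)))
          refine Finset.sum_congr rfl fun a ha => ?_
          refine Finset.sum_congr rfl fun p _ => ?_
          congr 2
          rw [List.map_append, List.map_fst_zip (by rw [answers_length L ha])]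
        have hdrop : ∑ p ∈ cs L o PR kn, (rk L (qq p) (kn.map Prod.fst ++ S) : ℝ) +
                ((cs L o PR kn).filter fun w => Tch L (kn.map Prod.fst) S (qq w)).card ≤
            ∑ p ∈ cs L o PR kn, (rk L (qq p) (kn.map Prod.fst) : ℝ) := by
          have e1 : (((cs L o PR kn).filter fun w =>
              Tch L (kn.map Prod.fst) S (qq w)).card : ℝ) = ∑ p ∈ cs L o PR kn,
              if Tch L (kn.map Prod.fst) S (qq p) then (1 : ℝ) else 0 := by
            rw [Finset.sum_ite, Finset.sum_const_zero, add_zero, Finset.sum_const, nsmul_eq_mul,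
              mul_one]
          rw [e1, ← Finset.sum_add_distrib]
          refine Finset.sum_le_sum fun p _ => ?_
          split_ifs with ht
          · exact_mod_cast rk_tch L ht
          · rw [add_zero]
            exact_mod_cast rk_mono L (qq p) (kn.map Prod.fst) S
        refine ⟨∑ a ∈ answers L S, u a, Finset.sum_nonneg fun a _ => (hu a).1, ?_, ?_, ?_⟩
        · rw [← hsR]
          exact Finset.sum_le_sum fun a _ => (hu a).2.1
        · have h1 : (j : ℝ) * ∑ a ∈ answers L S, u a ≤ h * ∑ p ∈ cs L o PR kn,
              (rk L (qq p) (kn.map Prod.fst ++ S) : ℝ) := by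
            rw [← hrk, Finset.mul_sum, Finset.mul_sum]
            exact Finset.sum_le_sum fun a _ => (hu a).2.2.1
          have h2 : ∑ a ∈ answers L S, u a ≤ (cs L o PR kn).card := by
            rw [← hsR]
            exact Finset.sum_le_sum fun a _ => (hu a).2.1
          have h3 : ((cs L o PR kn).card : ℝ) ≤
              h * ((cs L o PR kn).filter fun w => Tch L (kn.map Prod.fst) S (qq w)).card := by
            exact_mod_cast hS2.le
          have h4 := mul_le_mul_of_nonneg_left hdrop hh'.le
          rw [mul_add] at h4
          push_cast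
          rw [add_mul, one_mul]
          linarith
        · have e1 : ∑ ω ∈ cs L o PR kn,
              G ((closeR L o PR qq h D (j + 1) kn).run (o ω : Q → K)) ω =
              ∑ a ∈ answers L S, ∑ ω ∈ cs L o PR (kn ++ S.zip a),
                G ((closeR L o PR qq h D j (kn ++ S.zip a)).run (o ω : Q → K)) ω := by
            rw [← sum_answers L o PR kn S]
            refine Finset.sum_congr rfl fun a ha => ?_
            refine Finset.sum_congr rfl fun ω hω => ?_
            rw [hrun]
            have : S.map (o ω : Q → K) = a := by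
              have h1 := (Finset.mem_filter.mp hω).2.2
              rw [cons_append] at h1
              exact (cons_zip _ S a (answers_length L ha)).mp h1.2
            rw [this]
          rw [e1, ← hsR, Finset.mul_sum, ← Finset.sum_neg_distrib, ← Finset.sum_sub_distrib]
          exact Finset.sum_le_sum fun a _ => (hu a).2.2.2
  obtain ⟨u, hu0, hu1, hu2, hu3⟩ := key (n * h * g) kn
  have hrkn : ∑ p ∈ cs L o PR kn, (rk L (qq p) (kn.map Prod.fst) : ℝ) ≤
      n * (cs L o PR kn).card := by
    have : ∀ p ∈ cs L o PR kn, (rk L (qq p) (kn.map Prod.fst) : ℝ) ≤ n := by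
      intro p _
      exact_mod_cast (rk_le L _ _).trans (hn p)
    have h1 := Finset.sum_le_card_nsmul _ _ _ this
    rw [nsmul_eq_mul, mul_comm] at h1
    exact h1
  have hu4 : u ≤ (cs L o PR kn).card / g := by
    have h1 : ((n * h * g : ℕ) : ℝ) * u ≤ h * (n * (cs L o PR kn).card) :=
      hu2.trans (mul_le_mul_of_nonneg_left hrkn hh'.le)
    push_cast at h1
    have hn' : (0 : ℝ) < n := by exact_mod_cast hn0
    rw [le_div_iff₀ hg']
    have h2 : (n * h : ℝ) * (u * g) ≤ (n * h : ℝ) * (cs L o PR kn).card := by
      calc (n * h : ℝ) * (u * g) = n * h * g * u := by ring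
        _ ≤ h * (n * (cs L o PR kn).card) := h1
        _ = _ := by ring
    exact le_of_mul_le_mul_left h2 (by positivity)
  have e : (η + 1 / (g : ℝ)) * (cs L o PR kn).card =
    η * (cs L o PR kn).card + (cs L o PR kn).card / g := by ring
  rw [e]
  linarith

end loop

end Pool.Agent.LinOT
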