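import Pool.Agent.Lib.MP_ae38e0_lc.Few.Loop
import Pool.Agent.Lib.MP_ae38e0_lc.BoundedOT
import Pool.Agent.Lib.MP_ae38e0_lc.RoundNum

set_option autoImplicit false

/-!
# The attack after the end of the execution
-/

namespace Pool.Agent.LinOT

open Classical

variable {K : Type} [Field K] {Q M X Y R RA RB σ : Type}

/-- The party after it has processed the list `l`, as a side. -/
def Side.fin (A : Party Q K M X) (i : R → A.St) (l : List (M × M)) : Side Q K A.St R where
  s r O := A.after O (i r) l
  q r O := A.asked O (i r) l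
  P r O := A.agrees O (i r) l

omit [Field K] in
theorem fin_loc (A : Party Q K M X) (i : R → A.St) (l : List (M × M)) :
    (Side.fin A i l).Loc := by
  intro r O O' h
  have h1 := A.congr (O := O) (O' := O') l (i r) h
  exact ⟨h1.1, h1.2.2, h1.2.1⟩

variable (L : Submodule K (Q → K)) [Fintype L] [Fintype RA] [Fintype RB]

/-- The eavesdropper: she starts after the end of the execution. -/
noncomputable def eveF [Nonempty σ] (A : Party Q K M X) (B : Party Q K M Y) (iA : RA → A.St)
    (iB : RB → B.St) (outB : RB → B.St → σ) (m0 : M) (h D c : ℕ) (t : List (M × M)) :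
    Comp Q K σ :=
  (closeR L orc (real L (Side.fin A iA (inbox m0 t)) (Side.fin B iB t))
    (fun w : RA × RB × L => (Side.fin B iB t).q w.2.1 w.2.2) h D c []).bind fun kn =>
      .ret (best (cs L orc (real L (Side.fin A iA (inbox m0 t)) (Side.fin B iB t)) kn)
        (fun w => outB w.2.1 ((Side.fin B iB t).s w.2.1 w.2.2)))

/-- **Key agreement.** -/
theorem few_attack [Fintype K] [Nonempty σ] [Nonempty RA] [Nonempty RB] (A : Party Q K M X)
    (B : Party Q K M Y) (iA : RA → A.St) (iB : RB → B.St) (outA : RA → A.St → Option σ)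
    (outB : RB → B.St → σ) (m0 : M) (nA nB m h g r : ℕ) (hnB : 0 < nB) (hh : 0 < h) (hg : 0 < g)
    (hA : ∀ O ∈ L, ∀ (ra : RA) (l : List (M × M)), l.length = r →
      (A.asked O (iA ra) l).length ≤ nA)
    (hB : ∀ O ∈ L, ∀ (rb : RB) (l : List (M × M)), l.length = r →
      (B.asked O (iB rb) l).length ≤ nB)
    (hm : (∀ O ∈ L, ∀ (ra : RA) (l : List (M × M)), l.length = r →
      (A.asked O (iA ra) l).length ≤ m) ∨
      ∀ O ∈ L, ∀ (rb : RB) (l : List (M × M)), l.length = r →
        (B.asked O (iB rb) l).length ≤ m) :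
    ∃ E : List (M × M) → Comp Q K σ,
      (∀ t O, ((E t).asked O).length ≤ nB * h * g * nA) ∧
      prob (fun w : RA × RB × L => outA w.1 (exec A B w.2.2 r (iA w.1) (iB w.2.1) m0).2.1 =
        some (outB w.2.1 (exec A B w.2.2 r (iA w.1) (iB w.2.1) m0).2.2)) -
          ((2 * ((Fintype.card K : ℝ) ^ m) ^ 2 + 6) / h + 1 / g) ≤
      prob (fun w : RA × RB × L => (E (exec A B w.2.2 r (iA w.1) (iB w.2.1) m0).1).run w.2.2 =
        outB w.2.1 (exec A B w.2.2 r (iA w.1) (iB w.2.1) m0).2.2) := by
  have hh' : (0 : ℝ) < h := by exact_mod_cast hh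
  refine ⟨fun t => eveF L A B iA iB outB m0 h nA (nB * h * g) t, ?_, ?_⟩
  · intro t O
    have := closeR_asked L orc (real L (Side.fin A iA (inbox m0 t)) (Side.fin B iB t))
      (fun w : RA × RB × L => (Side.fin B iB t).q w.2.1 w.2.2) h nA O (nB * h * g) []
    simpa [eveF] using this
  · set tr : RA × RB × L → List (M × M) := fun w =>
      (exec A B w.2.2 r (iA w.1) (iB w.2.1) m0).1 with htr
    set η : ℝ := (2 * ((Fintype.card K : ℝ) ^ m) ^ 2 + 6) * (1 / h) with hη
    have hη0 : 0 ≤ η := by positivity
    set pay : RA × RB × L → ℝ := fun w =>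
      (if (eveF L A B iA iB outB m0 h nA (nB * h * g) (tr w)).run (w.2.2 : Q → K) =
        outB w.2.1 (exec A B w.2.2 r (iA w.1) (iB w.2.1) m0).2.2 then (1 : ℝ) else 0) -
      (if outA w.1 (exec A B w.2.2 r (iA w.1) (iB w.2.1) m0).2.1 =
        some (outB w.2.1 (exec A B w.2.2 r (iA w.1) (iB w.2.1) m0).2.2) then (1 : ℝ) else 0)
      with hpay
    have hone : ∀ t : List (M × M), t.length = r →
        -((η + 1 / g) * ((Finset.univ.filter fun w => tr w = t).card : ℝ)) ≤
          ∑ w ∈ Finset.univ.filter fun w => tr w = t, pay w := by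
      intro t ht
      set SA := Side.fin A iA (inbox m0 t) with hSA
      set SB := Side.fin B iB t with hSB
      have hset : (Finset.univ.filter fun w => tr w = t) = cs L orc (real L SA SB) [] := by
        ext w
        rw [mem_cs]
        simp only [Finset.mem_filter, Finset.mem_univ, true_and, real, orc]
        constructor
        · intro hw
          have h1 := exec_spec A B w.2.2 r (iA w.1) (iB w.2.1) m0
          have h2 : (exec A B w.2.2 r (iA w.1) (iB w.2.1) m0).1 = t := hw
          rw [h2] at h1
          exact ⟨⟨h1.2.1, h1.2.2.1⟩, fun x hx => absurd hx (List.not_mem_nil)⟩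
        · rintro ⟨⟨h1, h2⟩, -⟩
          have := exec_of_agrees A B w.2.2 r (iA w.1) (iB w.2.1) m0 t ht h1 h2
          simp only [htr, this]
      have hph := phaseR L orc (real L SA SB) (fun w : RA × RB × L => SB.q w.2.1 w.2.2) h nA nB g
        hnB hg hh (fun w => by
          exact hB w.2.2 w.2.2.2 w.2.1 t ht)
        (fun kn w => (if best (cs L orc (real L SA SB) kn)
            (fun w => outB w.2.1 (SB.s w.2.1 w.2.2)) = outB w.2.1 (SB.s w.2.1 w.2.2)
            then (1 : ℝ) else 0) -
          (if outA w.1 (SA.s w.1 w.2.2) = some (outB w.2.1 (SB.s w.2.1 w.2.2)) then (1 : ℝ)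
            else 0)) (fun _ _ => neg_one_le_ite _ _) η hη0
        (by
          intro kn hc
          have h1 := leaf_few L SA SB (fin_loc A iA (inbox m0 t)) (fin_loc B iB t) outA outB
            nA m h hh (fun ra O => hA O O.2 ra _ (by rw [inbox_length]; exact ht))
            (by
              rcases hm with h2 | h2
              · exact Or.inl fun ra O => h2 O O.2 ra _ (by rw [inbox_length]; exact ht)
              · exact Or.inr fun rb O => h2 O O.2 rb _ ht) kn hc
          rw [Finset.sum_sub_distrib]
          simp only [Finset.sum_ite, Finset.sum_const_zero, add_zero, Finset.sum_const,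
            nsmul_eq_mul, mul_one]
          have e : (cs L orc (real L SA SB) kn).filter (fun w =>
              best (cs L orc (real L SA SB) kn) (fun w => outB w.2.1 (SB.s w.2.1 w.2.2)) =
                outB w.2.1 (SB.s w.2.1 w.2.2)) =
              (cs L orc (real L SA SB) kn).filter (fun w => outB w.2.1 (SB.s w.2.1 w.2.2) =
                best (cs L orc (real L SA SB) kn)
                  (fun w => outB w.2.1 (SB.s w.2.1 w.2.2))) := by
            refine Finset.filter_congr fun w _ => ?_
            exact eq_comm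
          rw [e]
          linarith) []
      rw [hset]
      refine hph.trans (le_of_eq ?_)
      refine Finset.sum_congr rfl fun w hw => ?_
      have hw' : tr w = t := by
        rw [← hset] at hw
        exact (Finset.mem_filter.mp hw).2
      have h1 := exec_spec A B w.2.2 r (iA w.1) (iB w.2.1) m0
      have h2 : (exec A B w.2.2 r (iA w.1) (iB w.2.1) m0).1 = t := hw'
      rw [h2] at h1
      simp only [hpay, hw', h1.2.2.2.1, h1.2.2.2.2, eveF, Comp.run_bind, Comp.run_ret]
      rfl
    -- the sum over the transcripts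
    have hT : ∀ w ∈ (Finset.univ : Finset (RA × RB × L)), tr w ∈ Finset.univ.image tr :=
      fun w hw => Finset.mem_image_of_mem _ hw
    have hs1 := Finset.sum_fiberwise_of_maps_to hT pay
    have hs2 := Finset.sum_fiberwise_of_maps_to hT (fun _ => (1 : ℝ))
    simp only [Finset.sum_const, nsmul_eq_mul, mul_one] at hs2
    have htot : -((η + 1 / g) * (Fintype.card (RA × RB × L) : ℝ)) ≤ ∑ w, pay w := by
      rw [← hs1, ← Finset.card_univ, ← hs2, Finset.mul_sum, ← Finset.sum_neg_distrib]
      refine Finset.sum_le_sum fun t ht => hone t ?_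
      obtain ⟨w, -, rfl⟩ := Finset.mem_image.mp ht
      exact (exec_spec A B w.2.2 r (iA w.1) (iB w.2.1) m0).1
    simp only [hpay] at htot
    rw [Finset.sum_sub_distrib] at htot
    simp only [Finset.sum_ite, Finset.sum_const_zero, add_zero, Finset.sum_const,
      nsmul_eq_mul, mul_one] at htot
    rw [prob_eq, prob_eq]
    have hN : (0 : ℝ) < Fintype.card (RA × RB × L) := by
      have : Nonempty L := ⟨0⟩
      exact_mod_cast Fintype.card_pos
    rw [sub_le_iff_le_add, div_add' _ _ _ hN.ne', div_le_div_iff_of_pos_right hN]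
    have e : (2 * ((Fintype.card K : ℝ) ^ m) ^ 2 + 6) / h + 1 / g = η + 1 / g := by
      rw [hη]; ring
    rw [e]
    linarith

/-- **Oblivious transfer** in which one party asks few queries. -/
theorem ot_few [Fintype K] (L : Submodule K (Q → K)) [Finite L] (R : Party Q K M Bool)
    (S : Party Q K M (Bool × Bool)) [Fintype R.Tape] [Fintype S.Tape] [Nonempty R.Tape]
    [Nonempty S.Tape] (out : R.St → Option Bool) (m0 : M) (N nR nS m h g : ℕ) (hnS : 0 < nS)
    (hh : 0 < h) (hg : 0 < g) (hR : limited L R false N nR) (hS : ∀ b, limited L S b N nS)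
    (hm : limited L R false N m ∨ ∀ b, limited L S b N m) (δ : ℝ) (b1 : Bool)
    (hδ : ∀ b0, err L R S out N m0 false b0 b1 ≤ δ) :
    ∃ E : List (M × M) → Comp Q K Bool,
      (∀ t O, ((E t).asked O).length ≤ nS * h * g * nR) ∧
      1 - 2 * (δ + ((2 * ((Fintype.card K : ℝ) ^ m) ^ 2 + 6) / h + 1 / g)) ≤
        advSum L R S N m0 E b1 := by
  have : Fintype L := Fintype.ofFinite L
  have : Nonempty L := ⟨0⟩
  obtain ⟨E, hE1, hE2⟩ := few_attack L (RA := R.Tape) (RB := Bool × S.Tape) (σ := Bool) R S
    (fun τ => R.init false τ) (fun p => S.init (p.1, b1) p.2) (fun _ s => out s)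
    (fun p _ => p.1) m0 nR nS m h g N hnS hh hg (fun O hO ra l hl => hR O hO ra l hl)
    (fun O hO rb l hl => hS _ O hO rb.2 l hl)
    (by
      rcases hm with h1 | h1
      · exact Or.inl fun O hO ra l hl => h1 O hO ra l hl
      · exact Or.inr fun O hO rb l hl => h1 _ O hO rb.2 l hl)
  refine ⟨E, hE1, ?_⟩
  have q1 := prob_bool (T := R.Tape) (U := S.Tape) (V := L) (fun b O τ τ' =>
    out (exec R S O N (R.init false τ) (S.init (b, b1) τ') m0).2.1 = some b)
  have q2 := prob_bool (T := R.Tape) (U := S.Tape) (V := L) (fun b O τ τ' =>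
    (E (exec R S O N (R.init false τ) (S.init (b, b1) τ') m0).1).run (O : Q → K) = b)
  rw [q1, q2] at hE2
  have e1 : ∀ b0, 1 - δ ≤ prob (fun w : L × R.Tape × S.Tape =>
      out (exec R S w.1 N (R.init false w.2.1) (S.init (b0, b1) w.2.2) m0).2.1 = some b0) := by
    intro b0
    have := hδ b0
    unfold err at this
    rw [prob_not] at this
    unfold output at this
    simp only [Bool.false_eq_true, if_false] at this
    linarith
  have e2 : prob (fun w : L × R.Tape × S.Tape =>
      (E (exec R S w.1 N (R.init false w.2.1) (S.init (false, b1) w.2.2) m0).1).run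
        (w.1 : Q → K) = false) = 1 - acc L R S N m0 E false false b1 := by
    unfold acc
    rw [← prob_not]
    congr 1
    funext w
    simp [transcript]
  have e3 : prob (fun w : L × R.Tape × S.Tape =>
      (E (exec R S w.1 N (R.init false w.2.1) (S.init (true, b1) w.2.2) m0).1).run
        (w.1 : Q → K) = true) = acc L R S N m0 E false true b1 := rfl
  have f0 := e1 false
  have f1 := e1 true
  rw [e2, e3] at hE2
  have a1 := le_abs_self (acc L R S N m0 E true false b1 - acc L R S N m0 E false false b1)
  have a2 := neg_abs_le (acc L R S N m0 E true true b1 - acc L R S N m0 E false true b1)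
  have a3 := neg_abs_le (acc L R S N m0 E true true b1 - acc L R S N m0 E true false b1)
  have a4 := le_abs_self (acc L R S N m0 E true true b1 - acc L R S N m0 E true false b1)
  unfold advSum
  linarith

end Pool.Agent.LinOT
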